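import Pool.Agent.H27.DivComp

set_option autoImplicit false

namespace Pool.Agent.Results.MP_d29ee2_al.Universal

open Pool.Agent.H27.DivComp

universe u v

/-- If an ordered group `G` order-embeds in a divisible ordered group, then it has a minimal
divisible completion `K` that maps onto every minimal divisible completion, identically on `G`. -/
theorem result (G : Type u) [Group G] [LinearOrder G] [MulLeftMono G] [MulRightMono G]
    (h : Nonempty (DivExt.{u, v} G)) :
    ∃ K : DivExt.{u, u} G, K.IsMinimal ∧ ∀ E : DivExt.{u, v} G, E.IsMinimal →
      ∃ φ : K.H →* E.H, Function.Surjective φ ∧ ∀ g, φ (K.emb g) = E.emb g :=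
  main h

end Pool.Agent.Results.MP_d29ee2_al.Universal
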